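import Mathlib

/-!
# Certificates for points that cannot be born late

For a point `p` of the unit square and a time `k`, a witness consists of an earlier grid `j < k` and
later grids `t₁, ..., t₄` such that the cell of the `j`-grid containing `p` is covered by the cells
of the `t`-grids containing `p`. A tree of such witnesses is checked by computation.
-/

set_option autoImplicit false

namespace Q167.Grid

/-- The largest grid used. -/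
abbrev KM : ℕ := 116

/-- A witness for the point `(x, y)` and the time `k`. -/
def Witness (x y : ℝ) (k : ℕ) : Prop :=
  ∃ j t₁ t₂ t₃ t₄ : ℕ, (1 ≤ j ∧ j < k) ∧ (k ≤ t₁ ∧ t₁ ≤ KM) ∧ (k ≤ t₂ ∧ t₂ ≤ KM) ∧
    (k ≤ t₃ ∧ t₃ ≤ KM) ∧ (k ≤ t₄ ∧ t₄ ≤ KM) ∧
    (⌊(t₁ : ℝ) * x⌋₊ * j ≤ ⌊(j : ℝ) * x⌋₊ * t₁ ∧ ⌊(t₁ : ℝ) * y⌋₊ * j ≤ ⌊(j : ℝ) * y⌋₊ * t₁) ∧
    (⌊(t₂ : ℝ) * x⌋₊ * j ≤ ⌊(j : ℝ) * x⌋₊ * t₂ ∧
      (⌊(j : ℝ) * y⌋₊ + 1) * t₂ ≤ (⌊(t₂ : ℝ) * y⌋₊ + 1) * j) ∧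
    ((⌊(j : ℝ) * x⌋₊ + 1) * t₃ ≤ (⌊(t₃ : ℝ) * x⌋₊ + 1) * j ∧
      ⌊(t₃ : ℝ) * y⌋₊ * j ≤ ⌊(j : ℝ) * y⌋₊ * t₃) ∧
    ((⌊(j : ℝ) * x⌋₊ + 1) * t₄ ≤ (⌊(t₄ : ℝ) * x⌋₊ + 1) * j ∧
      (⌊(j : ℝ) * y⌋₊ + 1) * t₄ ≤ (⌊(t₄ : ℝ) * y⌋₊ + 1) * j)

/-- Certificate trees. `L` is a witness, `X`, `Y` split the box at a vertical or horizontal line,
`Z` splits the range of times. -/
inductive Tree
  | L (j t₁ t₂ t₃ t₄ : ℕ)
  | X (n d : ℕ) (l r : Tree)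
  | Y (n d : ℕ) (l r : Tree)
  | Z (k : ℕ) (l r : Tree)

/-- The floor of `j * x` is the same for all `x` in `[a / b, c / d)`. -/
def cst (a b c d j : ℕ) : Bool := Nat.ble (c * j) ((a * j / b + 1) * d)

/-- The check of a certificate for the box `[a/b, c/d) × [a'/b', c'/d')` and the times `ka..kb`. -/
def check : Tree → ℕ → ℕ → ℕ → ℕ → ℕ → ℕ → ℕ → ℕ → ℕ → ℕ → Bool
  | .L j t₁ t₂ t₃ t₄, a, b, c, d, a', b', c', d', ka, kb =>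
    (Nat.ble 1 j && Nat.ble (j + 1) ka) &&
    (Nat.ble kb t₁ && Nat.ble t₁ KM) && (Nat.ble kb t₂ && Nat.ble t₂ KM) &&
    (Nat.ble kb t₃ && Nat.ble t₃ KM) && (Nat.ble kb t₄ && Nat.ble t₄ KM) &&
    (cst a b c d j && cst a' b' c' d' j) &&
    (cst a b c d t₁ && cst a' b' c' d' t₁) && (cst a b c d t₂ && cst a' b' c' d' t₂) &&
    (cst a b c d t₃ && cst a' b' c' d' t₃) && (cst a b c d t₄ && cst a' b' c' d' t₄) &&
    (Nat.ble (a * t₁ / b * j) (a * j / b * t₁) && Nat.ble (a' * t₁ / b' * j) (a' * j / b' * t₁)) &&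
    (Nat.ble (a * t₂ / b * j) (a * j / b * t₂) &&
      Nat.ble ((a' * j / b' + 1) * t₂) ((a' * t₂ / b' + 1) * j)) &&
    (Nat.ble ((a * j / b + 1) * t₃) ((a * t₃ / b + 1) * j) &&
      Nat.ble (a' * t₃ / b' * j) (a' * j / b' * t₃)) &&
    (Nat.ble ((a * j / b + 1) * t₄) ((a * t₄ / b + 1) * j) &&
      Nat.ble ((a' * j / b' + 1) * t₄) ((a' * t₄ / b' + 1) * j))
  | .X n e l r, a, b, c, d, a', b', c', d', ka, kb =>
    Nat.ble 1 e && check l a b n e a' b' c' d' ka kb && check r n e c d a' b' c' d' ka kb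
  | .Y n e l r, a, b, c, d, a', b', c', d', ka, kb =>
    Nat.ble 1 e && check l a b c d a' b' n e ka kb && check r a b c d n e c' d' ka kb
  | .Z k l r, a, b, c, d, a', b', c', d', ka, kb =>
    Nat.ble 1 k && check l a b c d a' b' c' d' ka (k - 1) && check r a b c d a' b' c' d' k kb

lemma floor_of_cst {a b c d j : ℕ} (hb : 1 ≤ b) (hd : 1 ≤ d) (h : cst a b c d j = true) {x : ℝ}
    (h1 : (a : ℝ) / b ≤ x) (h2 : x < (c : ℝ) / d) : ⌊(j : ℝ) * x⌋₊ = a * j / b := by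
  have hb0 : (0 : ℝ) < b := by exact_mod_cast hb
  have hd0 : (0 : ℝ) < d := by exact_mod_cast hd
  have hx0 : 0 ≤ x := le_trans (by positivity) h1
  rw [cst, Nat.ble_eq] at h
  rw [Nat.floor_eq_iff (by positivity)]
  constructor
  · have h3 : ((a * j / b : ℕ) : ℝ) ≤ (a * j : ℕ) / (b : ℝ) := Nat.cast_div_le
    refine h3.trans ?_
    push_cast
    rw [div_le_iff₀ hb0] at h1 ⊢
    have : (a : ℝ) * j ≤ (x * b) * j := by gcongr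
    linarith
  · rcases Nat.eq_zero_or_pos j with rfl | hj
    · simp
    · have hj0 : (0 : ℝ) < j := by exact_mod_cast hj
      rw [lt_div_iff₀ hd0] at h2
      have h4 : (c : ℝ) * j ≤ ((a * j / b : ℕ) + 1) * d := by exact_mod_cast h
      have h5 : (j : ℝ) * x * d < (((a * j / b : ℕ) : ℝ) + 1) * d := by
        calc (j : ℝ) * x * d = (x * d) * j := by ring
          _ < c * j := by gcongr
          _ ≤ _ := h4
      exact lt_of_mul_lt_mul_right h5 hd0.le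

theorem check_sound (T : Tree) : ∀ (a b c d a' b' c' d' ka kb : ℕ), 1 ≤ b → 1 ≤ d → 1 ≤ b' →
    1 ≤ d' → check T a b c d a' b' c' d' ka kb = true → ∀ x y : ℝ, (a : ℝ) / b ≤ x →
    x < (c : ℝ) / d → (a' : ℝ) / b' ≤ y → y < (c' : ℝ) / d' → ∀ k, ka ≤ k → k ≤ kb →
    Witness x y k := by
  induction T with
  | L j t₁ t₂ t₃ t₄ =>
    intro a b c d a' b' c' d' ka kb hb hd hb' hd' h x y hx1 hx2 hy1 hy2 k hk1 hk2
    simp only [check, Bool.and_eq_true, Nat.ble_eq] at h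
    obtain ⟨⟨⟨⟨⟨⟨⟨⟨⟨⟨⟨⟨⟨h1, h2⟩, h3⟩, h4⟩, h5⟩, h6⟩, h7⟩, h8⟩, h9⟩, h10⟩, h11⟩, h12⟩, h13⟩, h14⟩ := h
    have fx : ∀ s, cst a b c d s = true → ⌊(s : ℝ) * x⌋₊ = a * s / b :=
      fun s hs => floor_of_cst hb hd hs hx1 hx2
    have fy : ∀ s, cst a' b' c' d' s = true → ⌊(s : ℝ) * y⌋₊ = a' * s / b' :=
      fun s hs => floor_of_cst hb' hd' hs hy1 hy2
    refine ⟨j, t₁, t₂, t₃, t₄, ⟨h1.1, by omega⟩, ⟨by omega, h2.2⟩, ⟨by omega, h3.2⟩,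
      ⟨by omega, h4.2⟩, ⟨by omega, h5.2⟩, ?_, ?_, ?_, ?_⟩
    · rw [fx t₁ h7.1, fx j h6.1, fy t₁ h7.2, fy j h6.2]; exact h11
    · rw [fx t₂ h8.1, fx j h6.1, fy t₂ h8.2, fy j h6.2]; exact h12
    · rw [fx t₃ h9.1, fx j h6.1, fy t₃ h9.2, fy j h6.2]; exact h13
    · rw [fx t₄ h10.1, fx j h6.1, fy t₄ h10.2, fy j h6.2]; exact h14
  | X n e l r ihl ihr =>
    intro a b c d a' b' c' d' ka kb hb hd hb' hd' h x y hx1 hx2 hy1 hy2 k hk1 hk2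
    simp only [check, Bool.and_eq_true, Nat.ble_eq] at h
    obtain ⟨⟨he, h1⟩, h2⟩ := h
    rcases lt_or_ge x ((n : ℝ) / e) with hlt | hge
    · exact ihl _ _ _ _ _ _ _ _ _ _ hb he hb' hd' h1 x y hx1 hlt hy1 hy2 k hk1 hk2
    · exact ihr _ _ _ _ _ _ _ _ _ _ he hd hb' hd' h2 x y hge hx2 hy1 hy2 k hk1 hk2
  | Y n e l r ihl ihr =>
    intro a b c d a' b' c' d' ka kb hb hd hb' hd' h x y hx1 hx2 hy1 hy2 k hk1 hk2
    simp only [check, Bool.and_eq_true, Nat.ble_eq] at h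
    obtain ⟨⟨he, h1⟩, h2⟩ := h
    rcases lt_or_ge y ((n : ℝ) / e) with hlt | hge
    · exact ihl _ _ _ _ _ _ _ _ _ _ hb hd hb' he h1 x y hx1 hx2 hy1 hlt k hk1 hk2
    · exact ihr _ _ _ _ _ _ _ _ _ _ hb hd he hd' h2 x y hx1 hx2 hge hy2 k hk1 hk2
  | Z m l r ihl ihr =>
    intro a b c d a' b' c' d' ka kb hb hd hb' hd' h x y hx1 hx2 hy1 hy2 k hk1 hk2
    simp only [check, Bool.and_eq_true, Nat.ble_eq] at h
    obtain ⟨⟨hm, h1⟩, h2⟩ := h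
    rcases lt_or_ge k m with hlt | hge
    · exact ihl _ _ _ _ _ _ _ _ _ _ hb hd hb' hd' h1 x y hx1 hx2 hy1 hy2 k hk1 (by omega)
    · exact ihr _ _ _ _ _ _ _ _ _ _ hb hd hb' hd' h2 x y hx1 hx2 hy1 hy2 k hge hk2

end Q167.Grid
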