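import Mathlib

/-!
# Grid-equidistributed sequences: definitions
-/

set_option autoImplicit false

namespace Q167.Grid

/-- The half-open unit square `[0,1)²`. -/
def unitSquare : Set (ℝ × ℝ) := Set.Ico 0 1 ×ˢ Set.Ico 0 1

/-- The cell number `(i, j)`, `0 ≤ i, j < k`, of the `k × k` grid on the unit square. -/
def gridCell (k i j : ℕ) : Set (ℝ × ℝ) :=
  Set.Ico ((i : ℝ) / k) ((i + 1 : ℝ) / k) ×ˢ Set.Ico ((j : ℝ) / k) ((j + 1 : ℝ) / k)

/-- A sequence of `K ^ 2` points of the unit square is `K`-good if for every `k = 1, ..., K` each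
cell of the `k × k` grid contains exactly one of the first `k ^ 2` points. (The point number
`m + 1` of the sequence has index `m : Fin (K ^ 2)`.) -/
def IsGood (K : ℕ) (x : Fin (K ^ 2) → ℝ × ℝ) : Prop :=
  (∀ m, x m ∈ unitSquare) ∧
  ∀ k : ℕ, 1 ≤ k → k ≤ K → ∀ i j : ℕ, i < k → j < k →
    ∃! m : Fin (K ^ 2), (m : ℕ) < k ^ 2 ∧ x m ∈ gridCell k i j

/-- An infinite sequence is good if every initial segment of length `K ^ 2` is `K`-good. -/
def IsGoodInfinite (x : ℕ → ℝ × ℝ) : Prop :=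
  ∀ K : ℕ, 1 ≤ K → IsGood K (fun m => x m)

/-- `K*`: the supremum of those `K ≥ 1` for which a `K`-good sequence exists. -/
noncomputable def Kstar : ℕ∞ :=
  sSup {N : ℕ∞ | ∃ K : ℕ, 1 ≤ K ∧ N = K ∧ ∃ x : Fin (K ^ 2) → ℝ × ℝ, IsGood K x}

end Q167.Grid
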