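import Pool.Agent.Q167.Grid.LowerCheck

/-!
# A 24-good sequence
-/

set_option autoImplicit false

namespace Q167.Grid

/-- The points `(a / b, c / d)` of a `24`-good sequence. -/
def pts : List (ℕ × ℕ × ℕ × ℕ) :=
 [(0,1,0,1), (0,1,23,24), (17,19,17,19), (23,24,1,13), (5,18,7,20), (10,19,11,18), (5,9,1,22),
  (13,23,14,17), (14,15,8,17), (3,22,5,18), (3,14,9,17), (7,19,1,14), (7,19,23,24), (3,8,7,11),
  (13,22,9,20), (11,12,8,11), (1,8,3,7), (2,13,13,19), (1,2,5,23), (17,24,1,17), (17,24,17,23),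
  (18,23,8,21), (11,14,17,18), (19,24,11,21), (20,23,5,19), (0,1,7,11), (2,9,18,19),
  (4,17,3,19), (1,4,14,19), (7,23,5,21), (7,20,9,23), (6,17,17,21), (4,9,7,22), (5,9,13,14),
  (3,4,5,21), (15,17,10,17), (1,19,4,13), (3,22,19,23), (3,19,1,18), (7,23,9,16), (11,23,12,23),
  (12,19,10,17), (15,23,1,4), (2,3,8,9), (13,19,9,22), (4,5,1,16), (5,6,15,22), (17,20,18,23),
  (9,10,5,14), (0,1,7,17), (0,1,6,11), (1,22,16,21), (1,18,3,19), (7,17,4,17), (4,9,9,22),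
  (7,15,16,19), (8,17,0,1), (11,23,20,21), (1,2,17,23), (13,22,1,3), (5,8,16,21), (17,23,3,17),
  (21,23,3,17), (12,13,17,20), (0,1,5,6), (2,17,13,22), (2,15,1,9), (3,20,18,19), (3,11,11,13),
  (5,17,1,21), (5,17,6,13), (4,11,14,19), (7,19,10,21), (8,19,4,23), (5,9,3,22), (17,24,8,17),
  (13,18,15,23), (16,21,20,23), (16,19,3,19), (18,19,9,16), (20,21,5,18), (1,20,4,17),
  (1,6,17,22), (4,21,4,11), (5,23,2,9), (7,24,7,11), (6,17,3,22), (10,23,3,5), (11,24,13,18),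
  (13,22,7,13), (11,18,2,3), (12,19,3,16), (11,17,2,21), (15,23,17,18), (9,13,4,13),
  (17,21,3,10), (6,7,20,21), (20,23,10,23), (11,12,13,20), (20,21,23,24), (0,1,8,17),
  (2,21,1,2), (2,19,4,19), (2,11,14,23), (5,24,3,10), (4,19,1,13), (3,14,17,24), (5,23,8,9),
  (7,23,16,17), (5,13,15,17), (8,17,1,7), (10,19,4,11), (13,24,3,10), (16,23,4,7), (18,23,5,7),
  (19,24,17,21), (13,16,11,18), (8,9,1,21), (17,19,9,17), (23,24,5,24), (23,24,2,5),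
  (1,13,13,18), (2,19,8,21), (1,9,19,22), (4,21,11,24), (3,11,1,11), (3,10,10,13), (7,22,5,17),
  (4,11,6,11), (7,19,7,22), (8,19,19,24), (3,7,11,23), (11,21,13,15), (10,19,5,11), (6,11,1,2),
  (11,18,10,11), (13,21,0,1), (5,7,23,24), (8,11,2,17), (17,23,15,19), (11,14,1,8),
  (17,21,5,11), (11,12,1,12), (23,24,13,16), (0,1,1,12), (0,1,11,12), (1,12,0,1), (1,9,9,14),
  (1,4,10,23), (7,22,4,21), (7,22,13,15), (9,23,11,16), (5,12,0,1), (10,23,1,13), (9,20,12,13),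
  (9,19,3,11), (9,19,2,3), (13,23,1,5), (13,23,12,17), (8,13,17,21), (7,11,5,14), (15,23,12,23),
  (15,23,11,17), (17,23,3,7), (17,21,19,21), (19,20,9,13), (22,23,0,1), (23,24,7,20),
  (23,24,12,19), (0,1,11,16), (1,10,7,22), (1,10,23,24), (3,19,3,13), (3,19,11,20),
  (3,19,17,19), (4,23,1,6), (1,5,11,13), (4,17,0,1), (5,21,5,13), (5,21,7,12), (7,22,2,3),
  (9,22,7,19), (10,17,23,24), (13,22,1,14), (14,23,5,18), (7,10,5,24), (7,10,5,6),
  (17,23,11,20), (3,4,3,5), (16,21,6,19), (7,9,1,23), (9,11,4,17), (5,6,4,11), (19,21,4,13),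
  (23,24,16,21), (23,24,12,13), (0,1,4,11), (1,13,1,13), (2,23,7,9), (2,23,10,11), (1,9,1,6),
  (1,7,9,19), (1,5,15,23), (3,11,12,23), (4,11,0,1), (3,8,5,19), (9,23,3,7), (9,22,5,6),
  (8,19,23,24), (3,7,7,13), (10,21,9,16), (11,23,1,13), (13,24,7,9), (11,19,14,23),
  (11,17,7,16), (2,3,3,20), (13,19,12,17), (8,11,5,14), (11,13,11,20), (11,13,16,19),
  (17,20,1,12), (6,7,10,21), (19,21,20,21), (11,12,7,9), (23,24,2,15), (1,17,4,7), (1,14,4,9),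
  (1,11,1,4), (2,13,1,3), (3,19,11,15), (4,17,19,24), (6,23,14,15), (3,11,5,18), (4,13,1,7),
  (1,3,14,23), (7,20,14,15), (9,20,3,14), (5,11,5,11), (10,21,15,19), (8,15,22,23), (7,13,2,23),
  (11,20,5,12), (5,9,15,23), (7,12,9,23), (8,13,3,23), (5,8,6,7), (15,22,0,1), (13,18,8,9),
  (10,13,2,3), (5,6,0,1), (5,6,11,15), (6,7,19,21), (7,8,4,19), (14,15,5,12), (17,18,1,2),
  (23,24,9,20), (1,22,3,16), (1,19,9,11), (1,10,15,22), (4,23,9,22), (2,11,13,16), (3,16,1,24),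
  (5,23,2,17), (3,13,4,15), (3,13,11,23), (5,19,9,13), (3,11,3,16), (5,18,23,24), (7,22,2,21),
  (7,22,1,2), (1,3,12,17), (3,8,3,16), (8,19,13,20), (11,23,1,3), (1,2,10,11), (7,13,1,4),
  (11,20,13,23), (8,13,11,23), (2,3,18,23), (7,10,5,8), (11,15,0,1), (15,19,4,7), (19,24,4,21),
  (13,16,6,7), (6,7,7,22), (7,8,12,19), (10,11,1,4), (15,16,1,8), (23,24,7,8), (1,24,2,17),
  (1,24,13,22), (1,17,9,23), (1,13,5,8), (1,13,19,22), (1,8,0,1), (3,17,23,24), (5,21,12,19),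
  (5,18,19,24), (3,10,5,12), (1,3,1,3), (2,5,16,17), (5,12,2,17), (8,19,5,18), (8,19,17,23),
  (9,19,13,21), (1,2,1,24), (1,2,2,15), (1,2,16,23), (4,7,20,23), (14,23,4,17), (14,23,13,18),
  (11,17,5,16), (2,3,7,19), (17,24,6,23), (17,24,11,21), (3,4,2,23), (3,4,3,4), (10,13,10,21),
  (10,13,23,24), (4,5,10,13), (19,23,7,17), (8,9,5,7), (16,17,3,5), (18,19,2,9), (0,1,8,9),
  (1,23,5,19), (1,20,11,23), (1,12,2,17), (2,17,1,13), (2,17,6,11), (2,17,17,18), (2,15,11,14),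
  (3,19,1,2), (3,17,2,17), (6,23,6,19), (2,7,13,22), (7,22,23,24), (1,3,5,11), (7,20,4,17),
  (3,8,7,9), (8,21,13,22), (9,22,13,23), (11,23,3,16), (11,23,4,9), (1,2,7,17), (13,22,1,6),
  (12,19,23,24), (11,17,6,11), (15,23,9,13), (15,23,19,23), (12,17,16,17), (17,22,5,19),
  (19,23,2,17), (5,6,23,24), (8,9,2,13), (8,9,9,23), (8,9,5,6), (9,10,4,5), (21,23,0,1),
  (23,24,11,21), (23,24,10,17), (0,1,5,23), (0,1,7,22), (0,1,8,11), (1,13,2,3), (1,13,23,24),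
  (2,17,14,19), (2,11,1,4), (1,5,21,22), (2,9,8,19), (6,23,15,17), (5,19,5,23), (4,15,3,23),
  (6,19,4,11), (7,22,0,1), (7,22,14,17), (3,7,17,19), (5,11,7,19), (10,21,17,19), (1,2,11,19),
  (12,23,14,17), (7,13,3,17), (4,7,2,7), (10,17,7,9), (8,13,13,21), (13,20,1,17), (15,23,5,24),
  (2,3,11,23), (2,3,23,24), (9,13,1,9), (13,18,7,22), (11,14,3,7), (19,23,5,18), (11,13,1,2),
  (17,20,13,20), (17,19,2,17), (11,12,11,12), (21,22,1,6), (23,24,6,19), (23,24,13,18),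
  (0,1,1,2), (1,13,7,20), (1,13,7,13), (3,22,3,8), (3,19,13,20), (3,16,7,22), (4,21,11,19),
  (2,9,3,4), (5,21,13,24), (5,18,0,1), (7,24,5,7), (7,19,6,7), (7,18,1,11), (7,18,7,18),
  (7,18,1,2), (9,23,6,19), (5,11,1,8), (5,11,16,21), (9,19,23,24), (10,21,5,21), (1,2,15,23),
  (12,23,7,22), (6,11,14,19), (11,19,0,1), (5,8,9,23), (15,23,17,23), (13,18,9,23), (11,15,2,9),
  (17,23,12,17), (17,23,11,13), (3,4,1,2), (3,4,21,23), (11,14,1,6), (11,14,15,23), (19,24,1,3),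
  (20,23,1,24), (9,10,2,3), (11,12,1,3), (11,12,7,8), (23,24,11,23), (23,24,2,3), (0,1,2,13),
  (0,1,5,18), (0,1,4,5), (2,17,5,11), (2,17,9,11), (1,8,3,10), (3,19,3,5), (1,6,0,1),
  (3,17,3,14), (2,9,3,17), (5,22,5,6), (5,22,23,24), (4,17,1,3), (5,21,2,3), (1,4,1,19),
  (6,19,19,21), (7,22,7,17), (7,22,10,17), (1,3,1,12), (1,3,3,4), (9,23,1,7), (7,17,13,18),
  (7,13,7,13), (13,23,1,9), (13,23,7,20), (13,23,11,23), (11,19,5,21), (13,22,19,22),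
  (2,3,1,23), (2,3,3,5), (12,17,1,6), (13,18,4,5), (10,13,4,11), (19,24,23,24), (6,7,2,9),
  (6,7,3,5), (7,8,23,24), (19,21,11,23), (19,21,10,13), (20,21,7,18), (23,24,1,4), (23,24,6,7),
  (23,24,23,24), (0,1,2,11), (0,1,3,4), (1,16,15,17), (1,13,21,22), (1,11,1,8), (3,23,4,23),
  (2,15,23,24), (3,22,2,15), (1,6,5,12), (4,23,17,23), (3,17,15,17), (1,5,1,2), (6,23,11,23),
  (5,14,15,23), (9,23,1,23), (7,17,10,21), (7,15,11,23), (11,23,2,17), (11,23,3,10),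
  (11,23,3,8), (11,23,13,20), (11,23,19,23), (1,2,11,23), (1,2,15,19), (1,2,23,24), (10,19,0,1),
  (5,9,15,17), (13,22,15,16), (3,5,13,23), (3,5,15,23), (13,20,21,23), (2,3,3,11), (11,16,5,11),
  (16,23,13,18), (12,17,1,2), (17,23,3,19), (17,23,14,23), (3,4,0,1), (19,24,0,1),
  (19,24,11,23), (19,23,17,23), (5,6,3,17), (11,12,13,16), (22,23,7,24), (23,24,2,19),
  (0,1,1,16), (0,1,3,7), (0,1,14,23), (1,22,0,1), (2,21,8,23), (2,17,6,13), (2,15,11,13),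
  (1,6,7,10), (3,16,2,15), (6,23,16,21), (3,11,5,13), (3,11,7,11), (5,18,9,16), (5,17,4,15),
  (1,3,3,17), (1,3,11,21), (7,20,8,9), (5,14,1,4), (5,13,0,1), (2,5,4,5), (7,17,23,24),
  (7,16,13,15), (5,11,13,24), (5,11,13,19), (6,11,3,8), (11,19,23,24), (14,23,7,24),
  (8,13,1,11), (12,19,6,13), (15,23,0,1), (15,23,1,7), (9,13,19,24), (17,24,19,20),
  (18,23,19,24), (19,24,1,7), (19,24,19,20), (4,5,13,24), (13,16,9,13), (9,11,5,8), (5,6,9,22),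
  (11,13,19,23), (17,19,11,20), (21,23,5,12), (11,12,1,24), (23,24,0,1), (23,24,1,5),
  (23,24,11,20)]

lemma pts_length : pts.length = 24 ^ 2 := by decide +kernel

lemma pts_check : checkPts pts = true := by decide +kernel

lemma pts_grids : checkGrids pts 24 = true := by decide +kernel

theorem exists_isGood : ∃ x : Fin (24 ^ 2) → ℝ × ℝ, IsGood 24 x :=
  isGood_of_check 24 pts pts_length pts_check pts_grids

end Q167.Grid
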