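import Pool.Agent.Q167.Grid.Good

/-!
# Checking an explicit good sequence
-/

set_option autoImplicit false

namespace Q167.Grid

/-- The number of the cell of the `k × k` grid containing the point `(a / b, c / d)`. -/
def code (k : ℕ) (p : ℕ × ℕ × ℕ × ℕ) : ℕ :=
  k * p.1 / p.2.1 * k + k * p.2.2.1 / p.2.2.2

/-- The set of the cells of the points of the list, as a bit mask. -/
def mask (k : ℕ) : List (ℕ × ℕ × ℕ × ℕ) → ℕ
  | [] => 0
  | p :: l => (1 <<< code k p) ||| mask k l

/-- The check for one grid. -/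
def checkGrid (l : List (ℕ × ℕ × ℕ × ℕ)) (k : ℕ) : Bool :=
  Nat.beq (mask k (l.take (k * k)) + 1) (1 <<< (k * k))

/-- The check for the grids of order `1, ..., K`. -/
def checkGrids (l : List (ℕ × ℕ × ℕ × ℕ)) : ℕ → Bool
  | 0 => true
  | K + 1 => checkGrid l (K + 1) && checkGrids l K

/-- The points lie in the unit square. -/
def checkPts : List (ℕ × ℕ × ℕ × ℕ) → Bool
  | [] => true
  | p :: l => (Nat.ble (p.1 + 1) p.2.1 && Nat.ble (p.2.2.1 + 1) p.2.2.2) && checkPts l

/-- The point of the plane described by four numbers. -/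
noncomputable def toPt (p : ℕ × ℕ × ℕ × ℕ) : ℝ × ℝ :=
  ((p.1 : ℝ) / p.2.1, (p.2.2.1 : ℝ) / p.2.2.2)

lemma testBit_mask (k c : ℕ) (l : List (ℕ × ℕ × ℕ × ℕ)) (h : (mask k l).testBit c = true) :
    ∃ p ∈ l, code k p = c := by
  induction l with
  | nil => simp [mask] at h
  | cons p l ih =>
    rw [mask, Nat.testBit_or, Bool.or_eq_true] at h
    rcases h with h | h
    · rw [Nat.one_shiftLeft, Nat.testBit_two_pow] at h
      exact ⟨p, by simp, by simpa using h⟩
    · obtain ⟨q, hq1, hq2⟩ := ih h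
      exact ⟨q, by simp [hq1], hq2⟩

lemma checkPts_sound (l : List (ℕ × ℕ × ℕ × ℕ)) (h : checkPts l = true) :
    ∀ p ∈ l, p.1 < p.2.1 ∧ p.2.2.1 < p.2.2.2 := by
  induction l with
  | nil => simp
  | cons q l ih =>
    simp only [checkPts, Bool.and_eq_true, Nat.ble_eq] at h
    intro p hp
    rw [List.mem_cons] at hp
    rcases hp with rfl | hp
    · exact ⟨h.1.1, h.1.2⟩
    · exact ih h.2 p hp

lemma checkGrids_sound (l : List (ℕ × ℕ × ℕ × ℕ)) (K : ℕ) (h : checkGrids l K = true) :
    ∀ k, 1 ≤ k → k ≤ K → checkGrid l k = true := by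
  induction K with
  | zero => intro k h1 h2; omega
  | succ K ih =>
    rw [checkGrids, Bool.and_eq_true] at h
    intro k h1 h2
    rcases Nat.lt_or_ge k (K + 1) with h3 | h3
    · exact ih h.2 k h1 (by omega)
    · have : k = K + 1 := by omega
      rw [this]; exact h.1

lemma floor_toPt {a b : ℕ} (k : ℕ) : ⌊(k : ℝ) * ((a : ℝ) / b)⌋₊ = k * a / b := by
  rw [← mul_div_assoc, ← Nat.cast_mul, Nat.floor_div_natCast, Nat.floor_natCast]

lemma floor_eq_of_mem {k i : ℕ} (hk : 1 ≤ k) {t : ℝ} (h0 : 0 ≤ t) :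
    t ∈ Set.Ico ((i : ℝ) / k) ((i + 1 : ℝ) / k) ↔ ⌊(k : ℝ) * t⌋₊ = i := by
  have hk0 : (0 : ℝ) < k := by exact_mod_cast hk
  rw [Nat.floor_eq_iff (by positivity), Set.mem_Ico, div_le_iff₀ hk0, lt_div_iff₀ hk0]
  constructor
  · rintro ⟨a, b⟩; exact ⟨by linarith, by linarith⟩
  · rintro ⟨a, b⟩; exact ⟨by linarith, by linarith⟩

/-- Soundness of the check. -/
theorem isGood_of_check (K : ℕ) (l : List (ℕ × ℕ × ℕ × ℕ)) (hl : l.length = K ^ 2)
    (h1 : checkPts l = true) (h2 : checkGrids l K = true) :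
    ∃ x : Fin (K ^ 2) → ℝ × ℝ, IsGood K x := by
  let x : Fin (K ^ 2) → ℝ × ℝ := fun m => toPt (l[(m : ℕ)]'(by rw [hl]; exact m.2))
  have hP := checkPts_sound l h1
  refine ⟨x, fun m => ?_, fun k hk1 hkK i j hi hj => ?_⟩
  · have hm := hP _ (List.getElem_mem (l := l) (n := (m : ℕ)) (by rw [hl]; exact m.2))
    obtain ⟨a1, a2⟩ := hm
    simp only [unitSquare, Set.mem_prod, Set.mem_Ico, x, toPt]
    refine ⟨⟨by positivity, ?_⟩, ⟨by positivity, ?_⟩⟩
    · rw [div_lt_one (by exact_mod_cast (by omega : 0 < _))]; exact_mod_cast a1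
    · rw [div_lt_one (by exact_mod_cast (by omega : 0 < _))]; exact_mod_cast a2
  · have hk2 : k * k ≤ K ^ 2 := by
      rw [← sq]; exact Nat.pow_le_pow_left hkK 2
    -- the code of the point number `m`
    let f : Fin (k * k) → ℕ := fun m => code k (l[(m : ℕ)]'(by rw [hl]; exact m.2.trans_le hk2))
    have hmask := checkGrids_sound l K h2 k hk1 hkK
    rw [checkGrid, Nat.beq_eq] at hmask
    have hsurj : ∀ c, c < k * k → ∃ m : Fin (k * k), f m = c := by
      intro c hc
      have h3 : mask k (l.take (k * k)) = 2 ^ (k * k) - 1 := by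
        rw [Nat.one_shiftLeft] at hmask
        omega
      have h4 : (mask k (l.take (k * k))).testBit c = true := by
        rw [h3, Nat.testBit_two_pow_sub_one]
        simpa using hc
      obtain ⟨p, hp1, hp2⟩ := testBit_mask k c _ h4
      rw [List.mem_take_iff_getElem] at hp1
      obtain ⟨m, hm, hpm⟩ := hp1
      refine ⟨⟨m, by omega⟩, ?_⟩
      simp only [f]
      rw [hpm, hp2]
    have hflt : ∀ m, f m < k * k := by
      intro m
      obtain ⟨a1, a2⟩ := hP _ (List.getElem_mem (l := l) (n := (m : ℕ))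
        (by rw [hl]; exact m.2.trans_le hk2))
      simp only [f, code]
      generalize l[(m : ℕ)] = p at a1 a2 ⊢
      have b1 : k * p.1 / p.2.1 < k := by
        rw [Nat.div_lt_iff_lt_mul (by omega)]
        exact Nat.mul_lt_mul_of_pos_left a1 (by omega)
      have b2 : k * p.2.2.1 / p.2.2.2 < k := by
        rw [Nat.div_lt_iff_lt_mul (by omega)]
        exact Nat.mul_lt_mul_of_pos_left a2 (by omega)
      nlinarith
    let g : Fin (k * k) → Fin (k * k) := fun m => ⟨f m, hflt m⟩
    have gsurj : Function.Surjective g := by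
      intro c
      obtain ⟨m, hm⟩ := hsurj c c.2
      exact ⟨m, Fin.ext hm⟩
    have ginj : Function.Injective g := Finite.injective_iff_surjective.2 gsurj
    -- membership in a cell is determined by the code
    have hmem : ∀ m : Fin (k * k), x ⟨m, m.2.trans_le hk2⟩ ∈ gridCell k i j ↔
        f m = i * k + j := by
      intro m
      obtain ⟨a1, a2⟩ := hP _ (List.getElem_mem (l := l) (n := (m : ℕ))
        (by rw [hl]; exact m.2.trans_le hk2))
      simp only [gridCell, Set.mem_prod, x, f, toPt, code]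
      generalize l[(m : ℕ)] = p at a1 a2 ⊢
      rw [floor_eq_of_mem hk1 (by positivity), floor_eq_of_mem hk1 (by positivity),
        floor_toPt, floor_toPt]
      have b2 : k * p.2.2.1 / p.2.2.2 < k := by
        rw [Nat.div_lt_iff_lt_mul (by omega)]
        exact Nat.mul_lt_mul_of_pos_left a2 (by omega)
      constructor
      · rintro ⟨c1, c2⟩; rw [c1, c2]
      · intro h
        have c1 : k * p.1 / p.2.1 = i := by
          have d1 : (k * p.1 / p.2.1 * k + k * p.2.2.1 / p.2.2.2) / k = (i * k + j) / k := by rw [h]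
          rw [mul_comm (k * p.1 / p.2.1) k, Nat.mul_add_div (by omega), Nat.div_eq_of_lt b2,
            mul_comm i k, Nat.mul_add_div (by omega), Nat.div_eq_of_lt hj] at d1
          simpa using d1
        rw [c1] at h
        exact ⟨c1, by omega⟩
    have hij : i * k + j < k * k := by nlinarith
    obtain ⟨m, hm⟩ := gsurj ⟨i * k + j, hij⟩
    have hm' : f m = i * k + j := congrArg Fin.val hm
    refine ⟨⟨m, m.2.trans_le hk2⟩, ⟨lt_of_lt_of_eq m.2 (sq k).symm, (hmem m).2 hm'⟩, ?_⟩
    rintro w ⟨hw1', hw2⟩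
    have hw1 : (w : ℕ) < k * k := lt_of_lt_of_eq hw1' (sq k)
    have hw3 := (hmem ⟨w, hw1⟩).1 hw2
    have : (⟨w, hw1⟩ : Fin (k * k)) = m := by
      apply ginj
      rw [hm]
      exact Fin.ext hw3
    apply Fin.ext
    have h6 : ((⟨w, hw1⟩ : Fin (k * k)) : ℕ) = (m : ℕ) := by rw [this]
    exact h6

end Q167.Grid
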