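import Pool.Agent.Q167.Grid.Good
import Pool.Agent.Q167.Grid.Cert

/-!
# No `116`-good sequence
-/

set_option autoImplicit false

namespace Q167.Grid

lemma mem_gridCell_iff {k i j : ℕ} (hk : 1 ≤ k) {p : ℝ × ℝ} (h1 : 0 ≤ p.1) (h2 : 0 ≤ p.2) :
    p ∈ gridCell k i j ↔ ⌊(k : ℝ) * p.1⌋₊ = i ∧ ⌊(k : ℝ) * p.2⌋₊ = j := by
  have hk0 : (0 : ℝ) < k := by exact_mod_cast hk
  rw [Nat.floor_eq_iff (by positivity), Nat.floor_eq_iff (by positivity)]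
  simp only [gridCell, Set.mem_prod, Set.mem_Ico, div_le_iff₀ hk0, lt_div_iff₀ hk0]
  constructor
  · rintro ⟨⟨a, b⟩, ⟨c, d⟩⟩
    exact ⟨⟨by linarith, by linarith⟩, ⟨by linarith, by linarith⟩⟩
  · rintro ⟨⟨a, b⟩, ⟨c, d⟩⟩
    exact ⟨⟨by linarith, by linarith⟩, ⟨by linarith, by linarith⟩⟩

lemma floor_lt {k : ℕ} {t : ℝ} (hk : 1 ≤ k) (h0 : 0 ≤ t) (h1 : t < 1) : ⌊(k : ℝ) * t⌋₊ < k := by
  have hk0 : (0 : ℝ) < k := by exact_mod_cast hk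
  rw [Nat.floor_lt (by positivity)]
  nlinarith

/-- Two points in the same cell at time `j`, the first below the second. -/
lemma floor_eq_left {j t : ℕ} {z p : ℝ} (hj : 1 ≤ j) (ht : 1 ≤ t) (hz : 0 ≤ z) (hzp : z ≤ p)
    (h : ⌊(j : ℝ) * z⌋₊ = ⌊(j : ℝ) * p⌋₊)
    (hA : ⌊(t : ℝ) * p⌋₊ * j ≤ ⌊(j : ℝ) * p⌋₊ * t) :
    ⌊(t : ℝ) * z⌋₊ = ⌊(t : ℝ) * p⌋₊ := by
  have hj0 : (0 : ℝ) < j := by exact_mod_cast hj
  have ht0 : (0 : ℝ) < t := by exact_mod_cast ht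
  rw [Nat.floor_eq_iff (by positivity)]
  constructor
  · have h1 : ((⌊(j : ℝ) * z⌋₊ : ℕ) : ℝ) ≤ j * z := Nat.floor_le (by positivity)
    rw [h] at h1
    have h2 : ((⌊(t : ℝ) * p⌋₊ : ℕ) : ℝ) * j ≤ (⌊(j : ℝ) * p⌋₊ : ℕ) * t := by exact_mod_cast hA
    have h3 : ((⌊(t : ℝ) * p⌋₊ : ℕ) : ℝ) * j ≤ (t * z) * j := by nlinarith
    exact le_of_mul_le_mul_right h3 hj0
  · have h1 : (t : ℝ) * p < (⌊(t : ℝ) * p⌋₊ : ℕ) + 1 := Nat.lt_floor_add_one _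
    nlinarith

/-- Two points in the same cell at time `j`, the first above the second. -/
lemma floor_eq_right {j t : ℕ} {z p : ℝ} (hj : 1 ≤ j) (ht : 1 ≤ t) (hp : 0 ≤ p) (hzp : p ≤ z)
    (h : ⌊(j : ℝ) * z⌋₊ = ⌊(j : ℝ) * p⌋₊)
    (hA : (⌊(j : ℝ) * p⌋₊ + 1) * t ≤ (⌊(t : ℝ) * p⌋₊ + 1) * j) :
    ⌊(t : ℝ) * z⌋₊ = ⌊(t : ℝ) * p⌋₊ := by
  have hj0 : (0 : ℝ) < j := by exact_mod_cast hj
  have ht0 : (0 : ℝ) < t := by exact_mod_cast ht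
  have hz : 0 ≤ z := hp.trans hzp
  rw [Nat.floor_eq_iff (by positivity)]
  constructor
  · have h1 : ((⌊(t : ℝ) * p⌋₊ : ℕ) : ℝ) ≤ t * p := Nat.floor_le (by positivity)
    nlinarith
  · have h1 : (j : ℝ) * z < (⌊(j : ℝ) * z⌋₊ : ℕ) + 1 := Nat.lt_floor_add_one _
    rw [h] at h1
    have h2 : (((⌊(j : ℝ) * p⌋₊ : ℕ) : ℝ) + 1) * t ≤ ((⌊(t : ℝ) * p⌋₊ : ℕ) + 1) * j := by
      exact_mod_cast hA
    have h3 : ((t : ℝ) * z) * j < (((⌊(t : ℝ) * p⌋₊ : ℕ) : ℝ) + 1) * j := by nlinarith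
    exact lt_of_mul_lt_mul_right h3 hj0.le

/-- A point with a witness for the time `k` is not among the points number `(k-1)²+1, ..., k²`. -/
lemma not_born {x : Fin (KM ^ 2) → ℝ × ℝ} (hx : IsGood KM x) {k : ℕ}
    {m : Fin (KM ^ 2)} (hm1 : (k - 1) ^ 2 ≤ (m : ℕ)) (hm2 : (m : ℕ) < k ^ 2) :
    ¬ Witness (x m).1 (x m).2 k := by
  intro hw
  obtain ⟨hQ, hx⟩ := hx
  have hp := hQ m
  simp only [unitSquare, Set.mem_prod, Set.mem_Ico] at hp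
  obtain ⟨⟨hp1, hp1'⟩, ⟨hp2, hp2'⟩⟩ := hp
  obtain ⟨j, t₁, t₂, t₃, t₄, ⟨hj1, hjk⟩, ⟨a1, b1⟩, ⟨a2, b2⟩, ⟨a3, b3⟩, ⟨a4, b4⟩, ⟨c1, d1⟩,
    ⟨c2, d2⟩, ⟨c3, d3⟩, ⟨c4, d4⟩⟩ := hw
  obtain ⟨i, ⟨hi1, hi2⟩, -⟩ := hx j hj1 (by omega) _ _ (floor_lt hj1 hp1 hp1')
    (floor_lt hj1 hp2 hp2')
  have hz := hQ i
  simp only [unitSquare, Set.mem_prod, Set.mem_Ico] at hz
  obtain ⟨⟨hz1, _⟩, ⟨hz2, _⟩⟩ := hz
  rw [mem_gridCell_iff hj1 hz1 hz2] at hi2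
  obtain ⟨e1, e2⟩ := hi2
  have hjk2 : j ^ 2 ≤ (k - 1) ^ 2 := Nat.pow_le_pow_left (by omega) 2
  have him : i ≠ m := by
    intro h
    rw [h] at hi1
    omega
  have final : ∀ t, k ≤ t → t ≤ KM → ⌊(t : ℝ) * (x i).1⌋₊ = ⌊(t : ℝ) * (x m).1⌋₊ →
      ⌊(t : ℝ) * (x i).2⌋₊ = ⌊(t : ℝ) * (x m).2⌋₊ → False := by
    intro t ht1 ht2 f1 f2
    obtain ⟨w, -, huniq⟩ := hx t (by omega) ht2 _ _ (floor_lt (by omega) hp1 hp1')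
      (floor_lt (by omega) hp2 hp2')
    have hkt : k ^ 2 ≤ t ^ 2 := Nat.pow_le_pow_left ht1 2
    have g1 := huniq m ⟨by omega, (mem_gridCell_iff (by omega) hp1 hp2).2 ⟨rfl, rfl⟩⟩
    have g2 := huniq i ⟨by omega, (mem_gridCell_iff (by omega) hz1 hz2).2 ⟨f1, f2⟩⟩
    exact him (g2.trans g1.symm)
  rcases le_total (x i).1 (x m).1 with h1 | h1
  · rcases le_total (x i).2 (x m).2 with h2 | h2
    · exact final t₁ a1 b1 (floor_eq_left hj1 (by omega) hz1 h1 e1 c1)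
        (floor_eq_left hj1 (by omega) hz2 h2 e2 d1)
    · exact final t₂ a2 b2 (floor_eq_left hj1 (by omega) hz1 h1 e1 c2)
        (floor_eq_right hj1 (by omega) hp2 h2 e2 d2)
  · rcases le_total (x i).2 (x m).2 with h2 | h2
    · exact final t₃ a3 b3 (floor_eq_right hj1 (by omega) hp1 h1 e1 c3)
        (floor_eq_left hj1 (by omega) hz2 h2 e2 d3)
    · exact final t₄ a4 b4 (floor_eq_right hj1 (by omega) hp1 h1 e1 c4)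
        (floor_eq_right hj1 (by omega) hp2 h2 e2 d4)

/-- Among the first `105²` points of a `116`-good sequence those in the box are among the first
`70²` points. -/
lemma early {x : Fin (KM ^ 2) → ℝ × ℝ} (hx : IsGood KM x) (m : Fin (KM ^ 2))
    (hm : (m : ℕ) < 105 ^ 2) {j : ℕ} (hj1 : 30 ≤ j) (hj2 : j < 33)
    (hc : x m ∈ gridCell 105 50 j) : (m : ℕ) < 70 ^ 2 := by
  by_contra hcon
  push Not at hcon
  have h1 : Nat.sqrt (m : ℕ) * Nat.sqrt (m : ℕ) ≤ m := Nat.sqrt_le _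
  have h2 : (m : ℕ) < (Nat.sqrt (m : ℕ) + 1) * (Nat.sqrt (m : ℕ) + 1) := Nat.lt_succ_sqrt _
  have h3 : 70 ≤ Nat.sqrt (m : ℕ) := by
    rw [Nat.le_sqrt]; omega
  have h4 : Nat.sqrt (m : ℕ) < 105 := by
    rw [Nat.sqrt_lt]; omega
  have h5 : (Nat.sqrt (m : ℕ) + 1 - 1) ^ 2 ≤ (m : ℕ) := by
    rw [Nat.add_sub_cancel]
    calc _ = Nat.sqrt (m : ℕ) * Nat.sqrt (m : ℕ) := by ring
      _ ≤ _ := h1
  have h6 : (m : ℕ) < (Nat.sqrt (m : ℕ) + 1) ^ 2 := by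
    calc _ < (Nat.sqrt (m : ℕ) + 1) * (Nat.sqrt (m : ℕ) + 1) := h2
      _ = _ := by ring
  refine not_born hx (k := Nat.sqrt (m : ℕ) + 1) (m := m) h5 h6 ?_
  simp only [gridCell, Set.mem_prod, Set.mem_Ico] at hc
  obtain ⟨⟨c1, c2⟩, ⟨c3, c4⟩⟩ := hc
  have hj1' : (30 : ℝ) ≤ j := by exact_mod_cast hj1
  have hj2' : (j : ℝ) + 1 ≤ 33 := by exact_mod_cast hj2
  refine witness_box _ _ ?_ ?_ ?_ ?_ _ (by omega) (by omega)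
  · refine le_trans ?_ c1
    norm_num
  · refine lt_of_lt_of_le c2 ?_
    norm_num
  · refine le_trans ?_ c3
    push_cast
    gcongr
  · refine lt_of_lt_of_le c4 ?_
    push_cast
    gcongr

theorem no_good_KM : ¬ ∃ x : Fin (KM ^ 2) → ℝ × ℝ, IsGood KM x := by
  rintro ⟨x, hx⟩
  have hex : ∀ j : ℕ, 30 ≤ j → j < 33 → ∃ m : Fin (KM ^ 2), (m : ℕ) < 70 ^ 2 ∧
      ⌊(105 : ℕ) * (x m).1⌋₊ = 50 ∧ ⌊(105 : ℕ) * (x m).2⌋₊ = j := by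
    intro j h1 h2
    obtain ⟨m, ⟨hm1, hm2⟩, -⟩ := hx.2 105 (by norm_num) (by norm_num) 50 j (by norm_num) (by omega)
    refine ⟨m, early hx m hm1 h1 h2 hm2, ?_⟩
    have hp := hx.1 m
    simp only [unitSquare, Set.mem_prod, Set.mem_Ico] at hp
    exact (mem_gridCell_iff (by norm_num) hp.1.1 hp.2.1).1 hm2
  -- the column and the row in the grid of order `70`
  have hcell : ∀ m : Fin (KM ^ 2), ⌊(105 : ℕ) * (x m).1⌋₊ = 50 →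
      30 ≤ ⌊(105 : ℕ) * (x m).2⌋₊ → ⌊(105 : ℕ) * (x m).2⌋₊ < 33 →
      x m ∈ gridCell 70 33 20 ∨ x m ∈ gridCell 70 33 21 := by
    intro m f1 f2 f3
    have hp := hx.1 m
    simp only [unitSquare, Set.mem_prod, Set.mem_Ico] at hp
    obtain ⟨⟨p1, p1'⟩, ⟨p2, p2'⟩⟩ := hp
    rw [Nat.floor_eq_iff (by positivity)] at f1
    rw [Nat.le_floor_iff (by positivity)] at f2
    rw [Nat.floor_lt (by positivity)] at f3
    push_cast at f1 f2 f3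
    rcases lt_or_ge (x m).2 (21 / 70) with h | h
    · left
      simp only [gridCell, Set.mem_prod, Set.mem_Ico]
      refine ⟨⟨?_, ?_⟩, ⟨?_, ?_⟩⟩ <;> push_cast <;> linarith
    · right
      simp only [gridCell, Set.mem_prod, Set.mem_Ico]
      refine ⟨⟨?_, ?_⟩, ⟨?_, ?_⟩⟩ <;> push_cast <;> linarith
  obtain ⟨m₀, a0, b0, c0⟩ := hex 30 (by norm_num) (by norm_num)
  obtain ⟨m₁, a1, b1, c1⟩ := hex 31 (by norm_num) (by norm_num)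
  obtain ⟨m₂, a2, b2, c2⟩ := hex 32 (by norm_num) (by norm_num)
  have e0 := hcell m₀ b0 (by omega) (by omega)
  have e1 := hcell m₁ b1 (by omega) (by omega)
  have e2 := hcell m₂ b2 (by omega) (by omega)
  obtain ⟨w, -, hw⟩ := hx.2 70 (by norm_num) (by norm_num) 33 20 (by norm_num) (by norm_num)
  obtain ⟨v, -, hv⟩ := hx.2 70 (by norm_num) (by norm_num) 33 21 (by norm_num) (by norm_num)
  have n01 : m₀ ≠ m₁ := by rintro rfl; omega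
  have n02 : m₀ ≠ m₂ := by rintro rfl; omega
  have n12 : m₁ ≠ m₂ := by rintro rfl; omega
  rcases e0 with e0 | e0 <;> rcases e1 with e1 | e1 <;> rcases e2 with e2 | e2
  · exact n01 ((hw _ ⟨a0, e0⟩).trans (hw _ ⟨a1, e1⟩).symm)
  · exact n01 ((hw _ ⟨a0, e0⟩).trans (hw _ ⟨a1, e1⟩).symm)
  · exact n02 ((hw _ ⟨a0, e0⟩).trans (hw _ ⟨a2, e2⟩).symm)
  · exact n12 ((hv _ ⟨a1, e1⟩).trans (hv _ ⟨a2, e2⟩).symm)
  · exact n12 ((hw _ ⟨a1, e1⟩).trans (hw _ ⟨a2, e2⟩).symm)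
  · exact n02 ((hv _ ⟨a0, e0⟩).trans (hv _ ⟨a2, e2⟩).symm)
  · exact n01 ((hv _ ⟨a0, e0⟩).trans (hv _ ⟨a1, e1⟩).symm)
  · exact n01 ((hv _ ⟨a0, e0⟩).trans (hv _ ⟨a1, e1⟩).symm)

/-- Initial segments of good sequences are good. -/
lemma IsGood.restrict {K K' : ℕ} (h : K' ≤ K) {x : Fin (K ^ 2) → ℝ × ℝ} (hx : IsGood K x) :
    IsGood K' (fun m : Fin (K' ^ 2) =>
      x ⟨m, m.2.trans_le (Nat.pow_le_pow_left h 2)⟩) := by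
  refine ⟨fun m => hx.1 _, fun k hk1 hk2 i j hi hj => ?_⟩
  obtain ⟨m, ⟨h1, h2⟩, h3⟩ := hx.2 k hk1 (hk2.trans h) i j hi hj
  have hk : k ^ 2 ≤ K' ^ 2 := Nat.pow_le_pow_left hk2 2
  refine ⟨⟨m, by omega⟩, ⟨h1, h2⟩, ?_⟩
  rintro w ⟨h4, h5⟩
  have := h3 ⟨w, w.2.trans_le (Nat.pow_le_pow_left h 2)⟩ ⟨h4, h5⟩
  apply Fin.ext
  have h6 : (w : ℕ) = (m : ℕ) := by rw [← this]
  exact h6

theorem not_isGood {K : ℕ} (hK : KM ≤ K) (x : Fin (K ^ 2) → ℝ × ℝ) : ¬ IsGood K x :=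
  fun hx => no_good_KM ⟨_, hx.restrict hK⟩

theorem not_isGoodInfinite (x : ℕ → ℝ × ℝ) : ¬ IsGoodInfinite x :=
  fun hx => no_good_KM ⟨_, hx KM (by norm_num)⟩

end Q167.Grid
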